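import Pool.Agent.H9.SmDefect.Main

/-!
# Finite schemes whose smoothability defect exceeds any multiple of their degree
-/

namespace Pool.Agent.Results.MP_ee5b76_ag.DefectExceedsDegree

open Pool.Agent.H9.SmDefect

/-- Over every algebraically closed field `k` and for every constant `c` there are `n` and a
finite subscheme `Γ = V(I)` of affine `n`-space with `δ(Γ) > c · deg Γ`. -/
theorem result (k : Type) [Field k] [IsAlgClosed k] (c : ℕ) :
    ∃ (n d : ℕ) (I : Ideal (MvPolynomial (Fin n) k)), HasDegree I d ∧ (c : ℕ∞) * d < defect I d :=
  haveI : Infinite k := inferInstance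
  main k c

end Pool.Agent.Results.MP_ee5b76_ag.DefectExceedsDegree
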